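import Pool.Agent.Work.MP_8bb7de_al.Elem

set_option autoImplicit false

/-!
Comparison of the abelianisations of two groups with isomorphic group algebras.
-/

namespace Pool.Agent.Work.MP_8bb7de_al

open MonoidAlgebra

section

variable {F : Type*} [Field F] {G : Type*} [Group G] {H : Type*} [Group H]

lemma finite_of_equiv [Finite G] (e : MonoidAlgebra F H ≃ₐ[F] MonoidAlgebra F G) : Finite H := by
  have h1 : (H →₀ F) ≃ₗ[F] (G →₀ F) :=
    (MonoidAlgebra.coeffLinearEquiv F).symm.trans
      (e.toLinearEquiv.trans (MonoidAlgebra.coeffLinearEquiv F))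
  have h2 : Module.Finite F (H →₀ F) := Module.Finite.equiv h1.symm
  exact Module.Finite.finite_basis (Finsupp.basisSingleOne (R := F) (ι := H))

lemma finrank_monoidAlgebra [Finite G] : Module.finrank F (MonoidAlgebra F G) = Nat.card G := by
  have := Fintype.ofFinite G
  rw [LinearEquiv.finrank_eq (MonoidAlgebra.coeffLinearEquiv (S := F) (R := F) (M := G)),
    Module.finrank_finsupp_self, Nat.card_eq_fintype_card]

lemma finite_monoidAlgebra [Finite G] : Module.Finite F (MonoidAlgebra F G) :=
  Module.Finite.equiv (MonoidAlgebra.coeffLinearEquiv (S := F) (R := F) (M := G)).symm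

lemma card_eq_of_equiv [Finite G] (e : MonoidAlgebra F H ≃ₐ[F] MonoidAlgebra F G) :
    Nat.card H = Nat.card G := by
  have := finite_of_equiv e
  rw [← finrank_monoidAlgebra (F := F) (G := G), ← finrank_monoidAlgebra (F := F) (G := H)]
  exact LinearEquiv.finrank_eq e.toLinearEquiv

/-- The projection `F[G] → F[G/G']`. -/
noncomputable def projAb (F : Type*) [Field F] (G : Type*) [Group G] :
    MonoidAlgebra F G →ₐ[F] MonoidAlgebra F (Abelianization G) :=
  MonoidAlgebra.mapDomainAlgHom F F (Abelianization.of : G →* Abelianization G)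

@[simp] lemma projAb_single (g : G) (r : F) :
    projAb F G (single g r) = single (Abelianization.of g) r := by
  simp [projAb]

lemma augmentation_projAb (a : MonoidAlgebra F G) :
    augmentation F _ (projAb F G a) = augmentation F G a := by
  induction a using MonoidAlgebra.induction_linear with
  | zero => simp
  | add x y hx hy => simp [hx, hy]
  | single g r => simp

lemma projAb_surjective : Function.Surjective (projAb F G) := by
  intro b
  induction b using MonoidAlgebra.induction_linear with
  | zero => exact ⟨0, map_zero _⟩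
  | add x y hx hy =>
    obtain ⟨a, rfl⟩ := hx
    obtain ⟨b, rfl⟩ := hy
    exact ⟨a + b, map_add _ _ _⟩
  | single g r =>
    obtain ⟨g, rfl⟩ := QuotientGroup.mk_surjective g
    exact ⟨single g r, projAb_single g r⟩

lemma exists_ab (e : MonoidAlgebra F H ≃ₐ[F] MonoidAlgebra F G) :
    ∃ ψ : MonoidAlgebra F (Abelianization H) →ₐ[F] MonoidAlgebra F (Abelianization G),
      (∀ h r, ψ (single (Abelianization.of h) r) = projAb F G (e (single h r))) ∧
        Function.Surjective ψ := by
  let f : H →* MonoidAlgebra F (Abelianization G) :=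
    (((projAb F G).comp e.toAlgHom : MonoidAlgebra F H →ₐ[F] _) :
      MonoidAlgebra F H →* MonoidAlgebra F (Abelianization G)).comp (of F H)
  let f2 : Abelianization H →* MonoidAlgebra F (Abelianization G) :=
    (Units.coeHom _).comp (Abelianization.lift f.toHomUnits)
  let ψ := MonoidAlgebra.lift F (MonoidAlgebra F (Abelianization G)) (Abelianization H) f2
  have h1 : ∀ h r, ψ (single (Abelianization.of h) r) = projAb F G (e (single h r)) := by
    intro h r
    change MonoidAlgebra.lift F _ _ f2 _ = _
    rw [lift_single]
    have h2 : f2 (Abelianization.of h) = projAb F G (e (single h 1)) := by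
      change ((Abelianization.lift f.toHomUnits (Abelianization.of h) :
        (MonoidAlgebra F (Abelianization G))ˣ) : MonoidAlgebra F (Abelianization G)) = _
      rw [Abelianization.lift_apply_of]
      rfl
    rw [h2, ← map_smul, ← map_smul, smul_single', mul_one]
  refine ⟨ψ, h1, ?_⟩
  have h2 : ∀ a : MonoidAlgebra F H, ψ (projAb F H a) = projAb F G (e a) := by
    intro a
    induction a using MonoidAlgebra.induction_linear with
    | zero => simp
    | add x y hx hy => simp [hx, hy]
    | single h r => rw [projAb_single, h1]
  intro b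
  obtain ⟨a, rfl⟩ := projAb_surjective b
  obtain ⟨c, rfl⟩ := e.surjective a
  exact ⟨projAb F H c, h2 c⟩

lemma card_ab_eq [Finite G] (e : MonoidAlgebra F H ≃ₐ[F] MonoidAlgebra F G) :
    Nat.card (Abelianization H) = Nat.card (Abelianization G) := by
  have := finite_of_equiv e
  have f1 : Finite (Abelianization G) := Finite.of_surjective _ QuotientGroup.mk_surjective
  have f2 : Finite (Abelianization H) := Finite.of_surjective _ QuotientGroup.mk_surjective
  have i1 := finite_monoidAlgebra (F := F) (G := Abelianization G)
  have i2 := finite_monoidAlgebra (F := F) (G := Abelianization H)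
  obtain ⟨ψ, -, hψ⟩ := exists_ab e
  obtain ⟨ψ', -, hψ'⟩ := exists_ab e.symm
  apply le_antisymm
  · rw [← finrank_monoidAlgebra (F := F), ← finrank_monoidAlgebra (F := F)]
    exact LinearMap.finrank_le_finrank_of_surjective (f := ψ'.toLinearMap) hψ'
  · rw [← finrank_monoidAlgebra (F := F), ← finrank_monoidAlgebra (F := F)]
    exact LinearMap.finrank_le_finrank_of_surjective (f := ψ.toLinearMap) hψ

lemma card_commutator_eq [Finite G] (e : MonoidAlgebra F H ≃ₐ[F] MonoidAlgebra F G) :
    Nat.card (commutator H) = Nat.card (commutator G) := by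
  have := finite_of_equiv e
  have h1 := card_ab_eq e
  have h2 := card_eq_of_equiv e
  have h3 := Subgroup.card_eq_card_quotient_mul_card_subgroup (commutator H)
  have h4 := Subgroup.card_eq_card_quotient_mul_card_subgroup (commutator G)
  have h5 : Nat.card (H ⧸ commutator H) = Nat.card (G ⧸ commutator G) := h1
  rw [h2, h4, h5] at h3
  have hpos : 0 < Nat.card (G ⧸ commutator G) := Nat.card_pos
  exact (Nat.eq_of_mul_eq_mul_left hpos h3).symm

lemma ab_injective [Finite G] (e : MonoidAlgebra F H ≃ₐ[F] MonoidAlgebra F G)
    (ψ : MonoidAlgebra F (Abelianization H) →ₐ[F] MonoidAlgebra F (Abelianization G))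
    (hψ : Function.Surjective ψ) : Function.Injective ψ := by
  have := finite_of_equiv e
  have f1 : Finite (Abelianization G) := Finite.of_surjective _ QuotientGroup.mk_surjective
  have f2 : Finite (Abelianization H) := Finite.of_surjective _ QuotientGroup.mk_surjective
  have i1 := finite_monoidAlgebra (F := F) (G := Abelianization G)
  have i2 := finite_monoidAlgebra (F := F) (G := Abelianization H)
  have h1 : Module.finrank F (MonoidAlgebra F (Abelianization H)) =
      Module.finrank F (MonoidAlgebra F (Abelianization G)) := by
    rw [finrank_monoidAlgebra, finrank_monoidAlgebra, card_ab_eq e]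
  exact (LinearMap.injective_iff_surjective_of_finrank_eq_finrank (f := ψ.toLinearMap) h1).2 hψ

/-- In the group algebra of an abelian group of exponent `p`, `p`-th powers are scalars. -/
lemma pow_char_eq (p : ℕ) [Fact p.Prime] [CharP F p] {A : Type*} [CommGroup A]
    (hA : ∀ a : A, a ^ p = 1) (x : MonoidAlgebra F A) :
    x ^ p = algebraMap F _ ((augmentation F A x) ^ p) := by
  have : CharP (MonoidAlgebra F A) p := charP_of_injective_algebraMap
    (algebraMap F (MonoidAlgebra F A)).injective p
  have hp0 : p ≠ 0 := (Fact.out : p.Prime).ne_zero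
  induction x using MonoidAlgebra.induction_linear with
  | zero => simp [hp0]
  | add x y hx hy =>
    rw [add_pow_char, hx, hy, map_add, add_pow_char, map_add]
  | single g r =>
    rw [single_pow, hA, augmentation_single]
    simp

lemma pow_char_mem_commutator (p : ℕ) [Fact p.Prime] [CharP F p] [Finite G]
    (hG : ∀ g : G, g ^ p ∈ commutator G) (e : MonoidAlgebra F H ≃ₐ[F] MonoidAlgebra F G)
    (he : ∀ h : H, augmentation F G (e (single h 1)) = 1) (h : H) : h ^ p ∈ commutator H := by
  obtain ⟨ψ, h1, hs⟩ := exists_ab e
  have hinj := ab_injective e ψ hs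
  have hA : ∀ a : Abelianization G, a ^ p = 1 := by
    intro a
    obtain ⟨g, rfl⟩ := QuotientGroup.mk_surjective a
    exact (QuotientGroup.eq_one_iff _).2 (hG g)
  have h2 : ψ (single (Abelianization.of h) 1 ^ p) = ψ 1 := by
    rw [map_pow, pow_char_eq p hA, h1, augmentation_projAb, he, one_pow, map_one, map_one]
  have h3 := hinj h2
  rw [single_pow, one_pow, one_def] at h3
  have h4 : (Abelianization.of h) ^ p = 1 := (single_left_inj one_ne_zero).1 h3
  rw [← map_pow] at h4
  exact (QuotientGroup.eq_one_iff (h ^ p)).1 h4

end

end Pool.Agent.Work.MP_8bb7de_al
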