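import Pool.Agent.Work.MP_8bb7de_al.Defs

set_option autoImplicit false

/-!
Derivations of group algebras and the key computation modulo the centre.
-/

namespace Pool.Agent.Work.MP_8bb7de_al

open MonoidAlgebra

section General

variable {F : Type*} [Field F] {G : Type*} [Group G]

@[simp] lemma augmentation_single (g : G) (r : F) : augmentation F G (single g r) = r := by
  simp [augmentation]

@[simp] lemma augmentation_of (g : G) : augmentation F G (of F G g) = 1 := by
  simp [augmentation]

/-- A derivation of a (noncommutative) algebra, as a property of a linear map. -/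
def IsDer {A : Type*} [Ring A] [Algebra F A] (δ : A →ₗ[F] A) : Prop :=
  ∀ x y, δ (x * y) = δ x * y + x * δ y

lemma IsDer.map_one {A : Type*} [Ring A] [Algebra F A] {δ : A →ₗ[F] A} (h : IsDer δ) : δ 1 = 0 := by
  have := h 1 1
  simp at this
  exact this

lemma IsDer.map_pow {A : Type*} [Ring A] [Algebra F A] {δ : A →ₗ[F] A} (h : IsDer δ) (x : A) (n : ℕ) :
    δ (x ^ n) = ∑ i ∈ Finset.range n, x ^ i * δ x * x ^ (n - 1 - i) := by
  induction n with
  | zero => simp [h.map_one]
  | succ n ih =>
    rw [pow_succ, h, ih, Finset.sum_range_succ, Finset.sum_mul]
    congr 1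
    · apply Finset.sum_congr rfl
      intro i hi
      rw [mul_assoc, ← pow_succ]
      congr 2
      have := Finset.mem_range.1 hi
      omega
    · simp

/-- The additive characters of `G` with values in `F`. -/
def IsAddChar (χ : G → F) : Prop := ∀ g h, χ (g * h) = χ g + χ h

lemma IsAddChar.map_one {χ : G → F} (h : IsAddChar χ) : χ 1 = 0 := by
  have := h 1 1
  simp at this
  exact this

/-- The diagonal derivation of `F[G]` attached to an additive character: `g ↦ χ(g) g`. -/
noncomputable def diagDer (χ : G → F) : MonoidAlgebra F G →ₗ[F] MonoidAlgebra F G :=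
  (Finsupp.lsum F fun g => χ g • (MonoidAlgebra.lsingle g : F →ₗ[F] MonoidAlgebra F G)) ∘ₗ
      (MonoidAlgebra.coeffLinearEquiv F).toLinearMap

lemma diagDer_single (χ : G → F) (g : G) (r : F) : diagDer χ (single g r) = single g (χ g * r) := by
  simp [diagDer]

lemma diagDer_coeff (χ : G → F) (x : MonoidAlgebra F G) (g : G) :
    (diagDer χ x).coeff g = χ g * x.coeff g := by
  classical
  induction x using MonoidAlgebra.induction_linear with
  | zero => simp
  | add x y hx hy => simp [hx, hy, mul_add]
  | single h r =>
    rw [diagDer_single]
    simp only [coeff_single, Finsupp.single_apply]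
    split_ifs with h1
    · rw [h1]
    · simp

lemma diagDer_isDer {χ : G → F} (hχ : IsAddChar χ) : IsDer (diagDer χ) := by
  intro x y
  induction x using MonoidAlgebra.induction_linear with
  | zero => simp
  | add x y hx hy => simp only [add_mul, map_add, hx, hy]; abel
  | single g r =>
    induction y using MonoidAlgebra.induction_linear with
    | zero => simp
    | add x y hx hy => simp only [mul_add, map_add, hx, hy]; abel
    | single h s =>
      simp only [single_mul_single, diagDer_single, ← single_add]
      congr 1
      rw [hχ]
      ring

end General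

end Pool.Agent.Work.MP_8bb7de_al
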