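import Mathlib

set_option autoImplicit false

/-!
Augmentation ideal and dimension subgroups of a group algebra.
-/

namespace Pool.Agent.Work.MP_8bb7de_al

/-- The augmentation map of the group algebra `F[G]`, sending a formal sum of group elements to the
sum of its coefficients. -/
noncomputable def augmentation (F G : Type*) [Field F] [Group G] : MonoidAlgebra F G →ₐ[F] F :=
  MonoidAlgebra.lift F F G 1

/-- The augmentation ideal of `F[G]`, viewed as an `F`-submodule, so that its powers are the usual
powers of the ideal. -/
noncomputable def augIdeal (F G : Type*) [Field F] [Group G] : Submodule F (MonoidAlgebra F G) :=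
  LinearMap.ker (augmentation F G).toLinearMap

/-- The dimension subgroup `D_n(G)`, as a set: the elements `g` of `G` with `g - 1` in the `n`-th power
of the augmentation ideal. -/
def dimensionSubgroup (F G : Type*) [Field F] [Group G] (n : ℕ) : Set G :=
  {g : G | MonoidAlgebra.of F G g - 1 ∈ (augIdeal F G) ^ n}

end Pool.Agent.Work.MP_8bb7de_al
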