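import Pool.Agent.Work.MP_8bb7de_al.Lambda

set_option autoImplicit false

/-!
Additive characters of elementary abelian groups, and the elementary consequences of the triviality
of the third dimension subgroup.
-/

namespace Pool.Agent.Work.MP_8bb7de_al

open MonoidAlgebra
open scoped commutatorElement

section chars

variable {p : ℕ} [Fact p.Prime] {F : Type*} [Field F] [CharP F p]

lemma exists_zmod_functional {V : Type*} [AddCommGroup V] [Module (ZMod p) V] {v : V} (hv : v ≠ 0) :
    ∃ f : V →+ ZMod p, f v ≠ 0 := by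
  by_contra hno
  push Not at hno
  apply hv
  rw [← Module.forall_dual_apply_eq_zero_iff (ZMod p)]
  intro φ
  exact hno φ.toAddMonoidHom

lemma exists_addHom {V : Type*} [AddCommGroup V] (hV : ∀ x : V, p • x = 0) {v : V} (hv : v ≠ 0) :
    ∃ f : V →+ ZMod p, f v ≠ 0 :=
  @exists_zmod_functional p _ V _ (AddCommGroup.zmodModule hV) v hv

variable (F) in
lemma exists_addChar_ne {A : Type*} [Group A] (hcomm : ∀ a b : A, a * b = b * a)
    (hA : ∀ a : A, a ^ p = 1) {a : A} (ha : a ≠ 1) : ∃ η : A → F, IsAddChar η ∧ η a ≠ 0 := by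
  let inst : CommGroup A := { (inferInstance : Group A) with mul_comm := hcomm }
  obtain ⟨f, hf⟩ := exists_addHom (p := p) (V := Additive A)
    (fun x => congrArg Additive.ofMul (hA x.toMul)) (v := Additive.ofMul a) (fun h => ha h)
  refine ⟨fun x => ZMod.castHom (dvd_refl p) F (f (Additive.ofMul x)), ?_, ?_⟩
  · intro x y
    change ZMod.castHom (dvd_refl p) F (f (Additive.ofMul x + Additive.ofMul y)) = _
    rw [map_add, map_add]
  · intro h
    apply hf
    have hinj : Function.Injective (ZMod.castHom (dvd_refl p) F) := RingHom.injective _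
    apply hinj
    rw [map_zero]
    exact h

lemma IsAddChar.inv {A : Type*} [Group A] {η : A → F} (h : IsAddChar η) (a : A) :
    η a⁻¹ = - η a := by
  have h1 := h a a⁻¹
  rw [mul_inv_cancel, h.map_one] at h1
  exact (neg_eq_of_add_eq_zero_right h1.symm).symm

lemma sepProp_of {G : Type*} [Group G] (hcomm : ∀ a b : G ⧸ Subgroup.center G, a * b = b * a)
    (hexp : ∀ a : G ⧸ Subgroup.center G, a ^ p = 1) : SepProp F G := by
  intro x y hxy
  obtain ⟨η, hη, hne⟩ := exists_addChar_ne (p := p) F hcomm hexp (a := x * y⁻¹)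
    (fun h => hxy (mul_inv_eq_one.1 h))
  refine ⟨η, hη, ?_⟩
  intro h
  apply hne
  rw [hη, hη.inv, h, add_neg_cancel]

/-- Central characters separate points of the centre when it is elementary abelian. -/
lemma exists_centralChar_ne {G : Type*} [Group G] (hexp : ∀ z ∈ Subgroup.center G, z ^ p = 1)
    {z : G} (hz : z ∈ Subgroup.center G) (hz1 : z ≠ 1) :
    ∃ φ : G → F, CentralChar φ ∧ φ z ≠ 0 := by
  classical
  obtain ⟨η, hη, hne⟩ := exists_addChar_ne (p := p) F (A := Subgroup.center G)
    (fun a b => Subtype.ext ((Subgroup.mem_center_iff.1 b.2 a.1))) (fun a => Subtype.ext (hexp a.1 a.2)) (a := ⟨z, hz⟩)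
    (fun h => hz1 (congrArg Subtype.val h))
  refine ⟨fun g => if h : g ∈ Subgroup.center G then η ⟨g, h⟩ else 0, ⟨?_, ?_⟩, ?_⟩
  · intro g hg
    simp [hg]
  · intro g hg k hk
    have hgk := (Subgroup.center G).mul_mem hg hk
    simp only [hg, hk, hgk, dif_pos]
    exact hη ⟨g, hg⟩ ⟨k, hk⟩
  · simp only [hz, dif_pos]
    exact hne

end chars

section dimension

variable {F : Type*} [Field F] {G : Type*} [Group G]

lemma mem_augIdeal {a : MonoidAlgebra F G} : a ∈ augIdeal F G ↔ augmentation F G a = 0 := by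
  simp [augIdeal]

lemma of_sub_one_mem (g : G) : of F G g - 1 ∈ augIdeal F G := by
  rw [mem_augIdeal, map_sub, augmentation_of, map_one, sub_self]

lemma augIdeal_pow_succ_le (n : ℕ) : (augIdeal F G) ^ (n + 2) ≤ (augIdeal F G) ^ (n + 1) := by
  rw [pow_succ, pow_succ, mul_assoc]
  apply mul_le_mul_right
  rw [Submodule.mul_le]
  intro a ha b hb
  rw [mem_augIdeal] at *
  rw [map_mul, ha, zero_mul]

lemma augIdeal_pow_le {m n : ℕ} (hn : 1 ≤ n) (h : n ≤ m) :
    (augIdeal F G) ^ m ≤ (augIdeal F G) ^ n := by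
  induction m, h using Nat.le_induction with
  | base => exact le_rfl
  | succ m hm ih =>
    refine le_trans ?_ ih
    obtain ⟨k, rfl⟩ : ∃ k, m = k + 1 := ⟨m - 1, by omega⟩
    exact augIdeal_pow_succ_le k

lemma mul_mem_augIdeal_pow {n : ℕ} (a b : MonoidAlgebra F G) (hb : b ∈ (augIdeal F G) ^ (n + 1)) :
    a * b ∈ (augIdeal F G) ^ (n + 1) := by
  rw [pow_succ'] at *
  induction hb using Submodule.mul_induction_on' with
  | mem_mul_mem x hx y hy =>
    rw [← mul_assoc]
    apply Submodule.mul_mem_mul _ hy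
    rw [mem_augIdeal] at *
    rw [map_mul, hx, mul_zero]
  | add x hx y hy h1 h2 =>
    rw [mul_add]
    exact Submodule.add_mem _ h1 h2

lemma of_commutator_sub_one (g h : G) : of F G (g⁻¹ * h⁻¹ * g * h) - 1 =
    (of F G g⁻¹ * of F G h⁻¹) * ((of F G g - 1) * (of F G h - 1) - (of F G h - 1) * (of F G g - 1)) := by
  have h1 : of F G g⁻¹ * of F G h⁻¹ * (of F G h * of F G g) = 1 := by
    rw [← map_mul, ← map_mul, ← map_mul]
    have : g⁻¹ * h⁻¹ * (h * g) = 1 := by group
    rw [this, map_one]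
  have h2 : of F G (g⁻¹ * h⁻¹ * g * h) = of F G g⁻¹ * of F G h⁻¹ * (of F G g * of F G h) := by
    rw [← map_mul, ← map_mul, ← map_mul]
    congr 1
    group
  rw [h2, show (of F G g - 1) * (of F G h - 1) - (of F G h - 1) * (of F G g - 1) =
    of F G g * of F G h - of F G h * of F G g from by noncomm_ring, mul_sub, h1]

lemma commutator_mem {g h : G} {m n : ℕ} (hg : of F G g - 1 ∈ (augIdeal F G) ^ m)
    (hh : of F G h - 1 ∈ (augIdeal F G) ^ n) (hmn : 1 ≤ m + n) :
    of F G (g⁻¹ * h⁻¹ * g * h) - 1 ∈ (augIdeal F G) ^ (m + n) := by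
  obtain ⟨k, hk⟩ : ∃ k, m + n = k + 1 := ⟨m + n - 1, by omega⟩
  rw [of_commutator_sub_one, hk]
  apply mul_mem_augIdeal_pow
  rw [← hk]
  apply Submodule.sub_mem
  · rw [pow_add]
    exact Submodule.mul_mem_mul hg hh
  · rw [add_comm, pow_add]
    exact Submodule.mul_mem_mul hh hg

lemma of_pow_char_sub_one (p : ℕ) [Fact p.Prime] [CharP F p] (g : G) :
    of F G (g ^ p) - 1 = (of F G g - 1) ^ p := by
  have : CharP (MonoidAlgebra F G) p := charP_of_injective_algebraMap
    (algebraMap F (MonoidAlgebra F G)).injective p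
  rw [sub_pow_char_of_commute p (Commute.one_right _), one_pow, map_pow]

lemma pow_char_mem (p : ℕ) [Fact p.Prime] [CharP F p] {g : G} {n : ℕ}
    (hg : of F G g - 1 ∈ (augIdeal F G) ^ n) :
    of F G (g ^ p) - 1 ∈ (augIdeal F G) ^ (n * p) := by
  rw [of_pow_char_sub_one, pow_mul]
  exact Submodule.pow_mem_pow _ hg p

/-- Commutators are central when the third dimension subgroup is trivial. -/
lemma classTwo_of_dim (hD : ∀ g ∈ dimensionSubgroup F G 3, g = 1) : ClassTwo G := by
  intro g h x
  have h1 : of F G g - 1 ∈ (augIdeal F G) ^ 1 := by rw [pow_one]; exact of_sub_one_mem g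
  have h2 : of F G h - 1 ∈ (augIdeal F G) ^ 1 := by rw [pow_one]; exact of_sub_one_mem h
  have h3 : of F G x - 1 ∈ (augIdeal F G) ^ 1 := by rw [pow_one]; exact of_sub_one_mem x
  have h4 := commutator_mem h1 h2 (by norm_num)
  have h5 := commutator_mem h4 h3 (by norm_num)
  have h6 := hD _ h5
  set c := g⁻¹ * h⁻¹ * g * h
  have : c * x = x * c := by
    calc c * x = x * c * (c⁻¹ * x⁻¹ * c * x) := by group
      _ = x * c := by rw [h6, mul_one]
  exact this

/-- The exponent is `p` when `p` is odd and the third dimension subgroup is trivial. -/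
lemma exponent_of_dim (p : ℕ) [Fact p.Prime] [CharP F p] (hp : p ≠ 2)
    (hD : ∀ g ∈ dimensionSubgroup F G 3, g = 1) (g : G) : g ^ p = 1 := by
  apply hD
  have h1 : of F G g - 1 ∈ (augIdeal F G) ^ 1 := by rw [pow_one]; exact of_sub_one_mem g
  have h2 := pow_char_mem p h1
  rw [one_mul] at h2
  have hp3 : 3 ≤ p := by
    have := (Fact.out : p.Prime).two_le
    omega
  exact augIdeal_pow_le (by norm_num) hp3 h2

end dimension

end Pool.Agent.Work.MP_8bb7de_al
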