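import Pool.Agent.Work.MP_8bb7de_al.Quot

set_option autoImplicit false

/-!
The key computation: a derivation of `F[G]` acts on `F[G/Z(G)]` diagonally, when `G` has odd prime
exponent and class at most two.
-/

namespace Pool.Agent.Work.MP_8bb7de_al

open MonoidAlgebra

section

variable {F : Type*} [Field F] {G : Type*} [Group G]

/-- The logarithmic derivative `δ(g) g⁻¹`. -/
noncomputable def logD (δ : MonoidAlgebra F G →ₗ[F] MonoidAlgebra F G) (g : G) :
    MonoidAlgebra F G :=
  δ (single g 1) * single g⁻¹ 1

variable {δ : MonoidAlgebra F G →ₗ[F] MonoidAlgebra F G}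

lemma single_mul_inv (g : G) : (single g (1 : F)) * single g⁻¹ 1 = 1 := by
  simp [single_mul_single, one_def]

lemma single_inv_mul (g : G) : (single g⁻¹ (1 : F)) * single g 1 = 1 := by
  simp [single_mul_single, one_def]

lemma logD_mul (hδ : IsDer δ) (g h : G) :
    logD δ (g * h) = logD δ g + single g 1 * logD δ h * single g⁻¹ 1 := by
  unfold logD
  have h1 : (single (g * h) (1 : F)) = single g 1 * single h 1 := by simp [single_mul_single]
  have h2 : (single (g * h)⁻¹ (1 : F)) = single h⁻¹ 1 * single g⁻¹ 1 := by
    simp [single_mul_single]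
  rw [h1, h2, hδ, add_mul]
  congr 1
  · rw [mul_assoc, ← mul_assoc (single h 1), single_mul_inv, one_mul]
  · simp only [mul_assoc]

lemma delta_single (g : G) : δ (single g 1) = logD δ g * single g 1 := by
  unfold logD
  rw [mul_assoc, single_inv_mul, mul_one]

lemma trace_logD (hδ : IsDer δ) (n : ℕ) (g : G) (hg : g ^ n = 1) :
    ∑ i ∈ Finset.range n, single (g ^ i) 1 * logD δ g * single (g ^ i)⁻¹ 1 = 0 := by
  have h1 := hδ.map_pow (single g 1) n
  rw [single_pow, hg, one_pow, ← one_def, hδ.map_one] at h1
  rw [h1]
  apply Finset.sum_congr rfl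
  intro i hi
  have hi' := Finset.mem_range.1 hi
  rw [delta_single, single_pow, one_pow, single_pow, one_pow]
  simp only [mul_assoc, single_mul_single, mul_one]
  congr 3
  have : g ^ i * (g * g ^ (n - 1 - i)) = 1 := by
    rw [← pow_succ', ← pow_add, ← hg]
    congr 1
    omega
  exact (inv_eq_of_mul_eq_one_right this)

lemma conj_coeff (a : MonoidAlgebra F G) (x y : G) :
    (single x 1 * a * single x⁻¹ 1).coeff y = a.coeff (x⁻¹ * y * x) := by
  rw [coeff_mul_single_apply, coeff_single_mul_apply]
  simp [mul_assoc]

lemma conj_pow_eq (g y c : G) (hc : c = y⁻¹ * g⁻¹ * y * g) (hcc : ∀ x, Commute c x) (i : ℕ) :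
    (g ^ i)⁻¹ * y * g ^ i = y * c ^ i := by
  induction i with
  | zero => simp
  | succ i ih =>
    have h1 : g⁻¹ * y * g = y * c := by rw [hc]; group
    have h2 : g⁻¹ * c ^ i * g = c ^ i := by
      have := ((hcc g).pow_left i)
      rw [mul_assoc, this.eq]
      simp
    calc (g ^ (i + 1))⁻¹ * y * g ^ (i + 1) = g⁻¹ * ((g ^ i)⁻¹ * y * g ^ i) * g := by
          rw [pow_succ]; group
      _ = g⁻¹ * (y * c ^ i) * g := by rw [ih]
      _ = (g⁻¹ * y * g) * (g⁻¹ * c ^ i * g) := by group
      _ = y * c ^ (i + 1) := by rw [h1, h2, pow_succ', mul_assoc]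

lemma sum_zpowers_eq {c : G} {p : ℕ} (hp : orderOf c = p) (hp0 : 0 < p) [Fintype (Subgroup.zpowers c)]
    (f : G → F) : ∑ n : Subgroup.zpowers c, f n = ∑ i ∈ Finset.range p, f (c ^ i) := by
  have hfin : IsOfFinOrder c := by
    rw [← orderOf_pos_iff, hp]; exact hp0
  rw [← Fin.sum_univ_eq_sum_range (fun i => f (c ^ i)), ← hp]
  symm
  apply Fintype.sum_equiv (finEquivZPowers hfin)
  intro i
  simp [finEquivZPowers_apply]

variable {p : ℕ} [Fact p.Prime]

/-- The commuting hypothesis for class at most two: all commutators are central. -/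
def ClassTwo (G : Type*) [Group G] : Prop := ∀ g h x : G, Commute (g⁻¹ * h⁻¹ * g * h) x

lemma ClassTwo.quot_comm (hG : ClassTwo G) (a b : G ⧸ Subgroup.center G) : a * b = b * a := by
  induction a using QuotientGroup.induction_on with
  | H a =>
    induction b using QuotientGroup.induction_on with
    | H b =>
      rw [← QuotientGroup.mk_mul, ← QuotientGroup.mk_mul]
      apply QuotientGroup.eq.2
      rw [Subgroup.mem_center_iff]
      intro g
      have := hG b a g
      have h2 : (a * b)⁻¹ * (b * a) = b⁻¹ * a⁻¹ * b * a := by group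
      rw [h2]
      exact this.symm.eq

lemma odd_coeff_zero (hδ : IsDer δ) (hexp : ∀ g : G, g ^ p = 1) (hG : ClassTwo G) (g y : G)
    (hgy : ¬ Commute g y) :
    (proj F (Subgroup.center G) (logD δ g)).coeff (y : G ⧸ Subgroup.center G) = 0 := by
  classical
  set c : G := y⁻¹ * g⁻¹ * y * g with hc
  have hcc : ∀ x, Commute c x := fun x => hG y g x
  have hc1 : c ≠ 1 := by
    intro h
    apply hgy
    have h2 : y * g = g * y := by
      calc y * g = g * y * (y⁻¹ * g⁻¹ * y * g) := by group
        _ = g * y := by rw [← hc, h, mul_one]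
    exact h2.symm
  have hord : orderOf c = p := orderOf_eq_prime (hexp c) hc1
  have hfin : IsOfFinOrder c := by
    rw [← orderOf_pos_iff, hord]; exact (Fact.out : p.Prime).pos
  have : Finite (Subgroup.zpowers c) := by
    have := hfin
    exact Set.finite_coe_iff.2 (by simpa using this)
  have : Fintype (Subgroup.zpowers c) := Fintype.ofFinite _
  have hle : Subgroup.zpowers c ≤ Subgroup.center G := by
    rw [Subgroup.zpowers_le, Subgroup.mem_center_iff]
    intro x
    exact (hcc x).symm.eq
  have : (Subgroup.zpowers c).Normal := by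
    constructor
    intro n hn x
    have h1 := hle hn
    rw [Subgroup.mem_center_iff] at h1
    have : x * n * x⁻¹ = n := by rw [h1 x]; simp
    rw [this]; exact hn
  apply proj_coeff_eq_zero _ _ hle
  intro x hx
  rw [sum_zpowers_eq hord (Fact.out : p.Prime).pos (fun n => (logD δ g).coeff (x * n))]
  have hcx : c = x⁻¹ * g⁻¹ * x * g := by
    have h1 : x⁻¹ * y ∈ Subgroup.center G := QuotientGroup.eq.1 hx
    rw [Subgroup.mem_center_iff] at h1
    have h2 : y = x * (x⁻¹ * y) := by group
    set z := x⁻¹ * y with hz
    rw [hc, h2]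
    have h3 := h1 (g⁻¹ * x * g)
    calc (x * z)⁻¹ * g⁻¹ * (x * z) * g = z⁻¹ * (x⁻¹ * g⁻¹ * x) * (z * g) := by group
      _ = z⁻¹ * (x⁻¹ * g⁻¹ * x) * (g * z) := by rw [h1 g]
      _ = z⁻¹ * ((x⁻¹ * g⁻¹ * x * g) * z) := by group
      _ = z⁻¹ * (z * (x⁻¹ * g⁻¹ * x * g)) := by rw [h1 (x⁻¹ * g⁻¹ * x * g)]
      _ = x⁻¹ * g⁻¹ * x * g := by group
  have ht := trace_logD hδ p g (hexp g)
  have ht2 := congrArg (fun a => a.coeff x) ht
  simp only [coeff_sum, Finset.sum_apply', coeff_zero, Finsupp.coe_zero, Pi.zero_apply,
    conj_coeff] at ht2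
  rw [← ht2]
  apply Finset.sum_congr rfl
  intro i _
  rw [conj_pow_eq g x c hcx hcc]

lemma augmentation_logD (g : G) : augmentation F G (logD δ g) = augmentation F G (δ (single g 1)) := by
  simp [logD]

/-- If a coset function vanishes whenever `g` does not commute with `y`, it vanishes. -/
lemma proj_logD_eq (hδ : IsDer δ) (hG : ClassTwo G)
    (H : ∀ g y : G, ¬ Commute g y →
      (proj F (Subgroup.center G) (logD δ g)).coeff (y : G ⧸ Subgroup.center G) = 0) (g : G) :
    proj F (Subgroup.center G) (logD δ g) = single 1 (augmentation F G (δ (single g 1))) := by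
  classical
  -- additivity
  have hadd : ∀ g h : G, proj F (Subgroup.center G) (logD δ (g * h)) =
      proj F (Subgroup.center G) (logD δ g) + proj F (Subgroup.center G) (logD δ h) := by
    intro g h
    rw [logD_mul hδ, map_add]
    congr 1
    rw [map_mul, map_mul, proj_single, proj_single]
    have hcomm : ∀ a : MonoidAlgebra F (G ⧸ Subgroup.center G),
        Commute (single (g : G ⧸ Subgroup.center G) (1 : F)) a := by
      intro a
      induction a using MonoidAlgebra.induction_linear with
      | zero => exact Commute.zero_right _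
      | add x y hx hy => exact hx.add_right hy
      | single k r =>
        apply single_commute_single
        · exact hG.quot_comm _ _
        · exact mul_comm _ _
    rw [(hcomm _).eq, mul_assoc, single_mul_single]
    simp [← one_def]
  have hzero : ∀ x : G ⧸ Subgroup.center G, x ≠ 1 →
      (proj F (Subgroup.center G) (logD δ g)).coeff x = 0 := by
    intro x hx
    induction x using QuotientGroup.induction_on with
    | H y =>
      have hy : y ∉ Subgroup.center G := by
        intro h
        exact hx ((QuotientGroup.eq_one_iff y).2 h)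
      rw [Subgroup.mem_center_iff] at hy
      push Not at hy
      obtain ⟨g₀, hg₀⟩ := hy
      by_cases hgy : Commute g y
      · have h1 := H (g * g₀) y (by
          intro h
          apply hg₀
          have : Commute (g⁻¹ * (g * g₀)) y := (hgy.inv_left).mul_left h
          simpa using this.eq)
        rw [hadd, coeff_add, Finsupp.add_apply, H g₀ y hg₀, add_zero] at h1
        exact h1
      · exact H g y hgy
  have h2 : proj F (Subgroup.center G) (logD δ g) =
      single 1 ((proj F (Subgroup.center G) (logD δ g)).coeff 1) := by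
    ext x
    rw [coeff_single, Finsupp.single_apply]
    split_ifs with h
    · rw [h]
    · exact hzero x (Ne.symm h)
  rw [h2]
  congr 1
  have h3 := augmentation_proj (Subgroup.center G) (logD δ g)
  rw [h2, augmentation_single, augmentation_logD] at h3
  exact h3

end

end Pool.Agent.Work.MP_8bb7de_al
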