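import Pool.Agent.Work.MP_8bb7de_al.Transfer

set_option autoImplicit false

/-!
Functionals on the group algebra supported on the centre, and their behaviour on units congruent
to one modulo the centre.
-/

namespace Pool.Agent.Work.MP_8bb7de_al

open MonoidAlgebra
open scoped commutatorElement

section

variable {F : Type*} [Field F] {G : Type*} [Group G]

/-- Evaluation functional `∑ a_g g ↦ ∑ a_g φ(g)`. -/
noncomputable def ev (φ : G → F) : MonoidAlgebra F G →ₗ[F] F :=
  (Finsupp.linearCombination F φ) ∘ₗ (MonoidAlgebra.coeffLinearEquiv F).toLinearMap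

@[simp] lemma ev_single (φ : G → F) (g : G) (r : F) : ev φ (single g r) = r * φ g := by
  simp [ev]

/-- A function on `G` supported on the centre and additive there. -/
structure CentralChar (φ : G → F) : Prop where
  off : ∀ g, g ∉ Subgroup.center G → φ g = 0
  add : ∀ z ∈ Subgroup.center G, ∀ w ∈ Subgroup.center G, φ (z * w) = φ z + φ w

lemma CentralChar.one {φ : G → F} (h : CentralChar φ) : φ 1 = 0 := by
  have := h.add 1 (Subgroup.one_mem _) 1 (Subgroup.one_mem _)
  simp at this
  exact this

lemma mul_mem_center_comm (g h : G) (hc : g * h ∈ Subgroup.center G) : h * g = g * h := by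
  rw [Subgroup.mem_center_iff] at hc
  have := hc g
  have h2 : g * (h * g) = g * (g * h) := by
    rw [this]; group
  exact mul_left_cancel h2

lemma CentralChar.comm {φ : G → F} (h : CentralChar φ) (g k : G) : φ (g * k) = φ (k * g) := by
  by_cases hc : g * k ∈ Subgroup.center G
  · rw [mul_mem_center_comm g k hc]
  · rw [h.off _ hc]
    by_cases hc' : k * g ∈ Subgroup.center G
    · exfalso
      apply hc
      rw [mul_mem_center_comm k g hc']
      exact hc'
    · rw [h.off _ hc']

lemma ev_mul_comm {φ : G → F} (h : CentralChar φ) (a b : MonoidAlgebra F G) :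
    ev φ (a * b) = ev φ (b * a) := by
  induction a using MonoidAlgebra.induction_linear with
  | zero => simp
  | add x y hx hy => simp only [add_mul, mul_add, map_add, hx, hy]
  | single g r =>
    induction b using MonoidAlgebra.induction_linear with
    | zero => simp
    | add x y hx hy => simp only [add_mul, mul_add, map_add, hx, hy]
    | single k s =>
      rw [single_mul_single, single_mul_single, ev_single, ev_single, h.comm, mul_comm r s]

lemma ev_central_mul {φ : G → F} (h : CentralChar φ) {z : G} (hz : z ∈ Subgroup.center G)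
    (a : MonoidAlgebra F G) :
    ev φ (single z 1 * a) = ev φ a + φ z * (proj F (Subgroup.center G) a).coeff 1 := by
  classical
  induction a using MonoidAlgebra.induction_linear with
  | zero => simp
  | add x y hx hy =>
    simp only [mul_add, map_add, hx, hy, coeff_add, Finsupp.add_apply]
    ring
  | single g r =>
    rw [single_mul_single, ev_single, ev_single, proj_single, coeff_single, Finsupp.single_apply,
      one_mul]
    by_cases hg : g ∈ Subgroup.center G
    · rw [if_pos ((QuotientGroup.eq_one_iff g).2 hg), h.add z hz g hg]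
      ring
    · rw [if_neg (fun h => hg ((QuotientGroup.eq_one_iff g).1 h)), h.off g hg, h.off (z * g)]
      · ring
      · intro hzg
        apply hg
        have := (Subgroup.center G).mul_mem ((Subgroup.center G).inv_mem hz) hzg
        simpa using this

lemma ev_mul_eq_zero {φ : G → F} (h : CentralChar φ) {a b : MonoidAlgebra F G}
    (ha : proj F (Subgroup.center G) a = 0) (hb : proj F (Subgroup.center G) b = 0) :
    ev φ (a * b) = 0 := by
  classical
  have hconst : ∀ (g z : G), z ∈ Subgroup.center G →
      ev φ (single (g * z) 1 * b) = ev φ (single g 1 * b) := by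
    intro g z hz
    have h1 : (single (g * z) (1 : F)) = single z 1 * single g 1 := by
      rw [single_mul_single, one_mul]
      congr 1
      rw [Subgroup.mem_center_iff] at hz
      exact hz g
    have h0 : proj F (Subgroup.center G) (single g 1 * b) = 0 := by rw [map_mul, hb, mul_zero]
    rw [h1, mul_assoc, ev_central_mul h hz, h0]
    simp
  let K : G ⧸ Subgroup.center G → F := fun x => ev φ (single (Quotient.out x) 1 * b)
  have hK : ∀ g : G, K (g : G ⧸ Subgroup.center G) = ev φ (single g 1 * b) := by
    intro g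
    obtain ⟨z, hz⟩ := QuotientGroup.mk_out_eq_mul (Subgroup.center G) g
    change ev φ (single (Quotient.out (g : G ⧸ Subgroup.center G)) 1 * b) = _
    rw [hz]
    exact hconst g z z.2
  have hall : ∀ a : MonoidAlgebra F G, ev φ (a * b) = ev K (proj F (Subgroup.center G) a) := by
    intro a
    induction a using MonoidAlgebra.induction_linear with
    | zero => simp
    | add x y hx hy => simp only [add_mul, map_add, hx, hy]
    | single g r =>
      rw [proj_single, ev_single, hK]
      have : (single g r : MonoidAlgebra F G) = r • single g 1 := by simp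
      rw [this, smul_mul_assoc, map_smul, smul_eq_mul]
  rw [hall, ha, map_zero]

/-- Units congruent to `1` modulo the centre. -/
noncomputable def U (F : Type*) [Field F] (G : Type*) [Group G] : Subgroup (MonoidAlgebra F G)ˣ :=
  MonoidHom.ker (Units.map (MonoidHomClass.toMonoidHom (proj F (Subgroup.center G))))

lemma mem_U {u : (MonoidAlgebra F G)ˣ} :
    u ∈ U F G ↔ proj F (Subgroup.center G) (u : MonoidAlgebra F G) = 1 := by
  rw [U, MonoidHom.mem_ker, Units.ext_iff]
  rfl

lemma ev_mul_U {φ : G → F} (h : CentralChar φ) {u w : (MonoidAlgebra F G)ˣ} (hu : u ∈ U F G)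
    (hw : w ∈ U F G) :
    ev φ ((u * w : (MonoidAlgebra F G)ˣ) : MonoidAlgebra F G) = ev φ (u : MonoidAlgebra F G) +
      ev φ (w : MonoidAlgebra F G) := by
  rw [mem_U] at hu hw
  have h1 : ((u * w : (MonoidAlgebra F G)ˣ) : MonoidAlgebra F G) =
      (((u : MonoidAlgebra F G) - 1) * ((w : MonoidAlgebra F G) - 1)) + (u : MonoidAlgebra F G) +
        (w : MonoidAlgebra F G) - 1 := by
    rw [Units.val_mul]; noncomm_ring
  have h2 : ev φ (1 : MonoidAlgebra F G) = 0 := by
    rw [one_def, ev_single, h.one, mul_zero]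
  rw [h1, map_sub, map_add, map_add, ev_mul_eq_zero h, h2]
  · ring
  · rw [map_sub, hu, map_one, sub_self]
  · rw [map_sub, hw, map_one, sub_self]

lemma ev_one_U {φ : G → F} (h : CentralChar φ) :
    ev φ ((1 : (MonoidAlgebra F G)ˣ) : MonoidAlgebra F G) = 0 := by
  rw [Units.val_one, one_def, ev_single, h.one, mul_zero]

lemma ev_inv_U {φ : G → F} (h : CentralChar φ) {u : (MonoidAlgebra F G)ˣ} (hu : u ∈ U F G) :
    ev φ ((u⁻¹ : (MonoidAlgebra F G)ˣ) : MonoidAlgebra F G) = - ev φ (u : MonoidAlgebra F G) := by
  have h1 := ev_mul_U h hu ((U F G).inv_mem hu)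
  rw [mul_inv_cancel, ev_one_U h] at h1
  exact (neg_eq_of_add_eq_zero_right h1.symm).symm

lemma ev_conj {φ : G → F} (h : CentralChar φ) (x u : (MonoidAlgebra F G)ˣ) :
    ev φ ((x * u * x⁻¹ : (MonoidAlgebra F G)ˣ) : MonoidAlgebra F G) =
      ev φ (u : MonoidAlgebra F G) := by
  rw [Units.val_mul, Units.val_mul, ev_mul_comm h, ← mul_assoc]
  simp

instance : (U F G).Normal := by
  unfold U
  infer_instance

lemma ev_commutator {φ : G → F} (h : CentralChar φ) (x y a b : (MonoidAlgebra F G)ˣ)
    (ha : a ∈ U F G) (hb : b ∈ U F G) (hxy : ⁅x, y⁆ ∈ U F G) :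
    ev φ ((⁅x * a, y * b⁆ : (MonoidAlgebra F G)ˣ) : MonoidAlgebra F G) =
      ev φ ((⁅x, y⁆ : (MonoidAlgebra F G)ˣ) : MonoidAlgebra F G) := by
  have h1 : ⁅x * a, y * b⁆ = (x * a * x⁻¹) * ((x * y) * (b * a⁻¹) * (x * y)⁻¹) *
      ((x * y * x⁻¹) * b⁻¹ * (x * y * x⁻¹)⁻¹) * ⁅x, y⁆ := by
    simp only [commutatorElement_def]
    group
  have hba : b * a⁻¹ ∈ U F G := (U F G).mul_mem hb ((U F G).inv_mem ha)
  have hn : (U F G).Normal := inferInstance
  have m1 := hn.conj_mem a ha x
  have m2 := hn.conj_mem _ hba (x * y)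
  have m3 := hn.conj_mem _ ((U F G).inv_mem hb) (x * y * x⁻¹)
  rw [h1, ev_mul_U h ((U F G).mul_mem ((U F G).mul_mem m1 m2) m3) hxy,
    ev_mul_U h ((U F G).mul_mem m1 m2) m3, ev_mul_U h m1 m2, ev_conj h, ev_conj h, ev_conj h,
    ev_mul_U h hb ((U F G).inv_mem ha), ev_inv_U h ha, ev_inv_U h hb]
  ring

lemma ev_pow {φ : G → F} (h : CentralChar φ) (x a : (MonoidAlgebra F G)ˣ) (ha : a ∈ U F G)
    (n : ℕ) : ∃ A ∈ U F G, (x * a) ^ n = A * x ^ n ∧
      ev φ (A : MonoidAlgebra F G) = n * ev φ (a : MonoidAlgebra F G) := by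
  have hn : (U F G).Normal := inferInstance
  induction n with
  | zero => exact ⟨1, (U F G).one_mem, by simp, by simp [one_def, h.one]⟩
  | succ n ih =>
    obtain ⟨A, hA, h1, h2⟩ := ih
    have m := hn.conj_mem a ha (x ^ (n + 1))
    refine ⟨A * (x ^ (n + 1) * a * (x ^ (n + 1))⁻¹), (U F G).mul_mem hA m, ?_, ?_⟩
    · rw [pow_succ, h1, pow_succ x n]
      group
    · rw [ev_mul_U h hA m, h2, ev_conj h]
      push_cast
      ring

end

end Pool.Agent.Work.MP_8bb7de_al
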