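import Mathlib

set_option autoImplicit false

/-!
Common complements of two subspaces of the same dimension, and the resulting way to see that two
quotients of a finite group are isomorphic.
-/

namespace Pool.Agent.Work.MP_8bb7de_al

section complement

variable {K : Type*} [Field K] {V : Type*} [AddCommGroup V] [Module K V] [FiniteDimensional K V]

open Module

omit [FiniteDimensional K V] in
lemma exists_notMem_union {A B : Submodule K V} (hA : A ≠ ⊤) (hB : B ≠ ⊤) :
    ∃ v, v ∉ A ∧ v ∉ B := by
  by_contra hno
  push Not at hno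
  have h1 : ∃ a, a ∉ A := by
    by_contra h
    push Not at h
    exact hA (Submodule.eq_top_iff'.2 h)
  have h2 : ∃ b, b ∉ B := by
    by_contra h
    push Not at h
    exact hB (Submodule.eq_top_iff'.2 h)
  obtain ⟨a, ha⟩ := h1
  obtain ⟨b, hb⟩ := h2
  have haB : a ∈ B := hno a ha
  have hbA : b ∈ A := by
    by_contra h
    exact hb (hno b h)
  have h3 : a + b ∉ A := fun h => ha (by simpa using A.sub_mem h hbA)
  have h4 : a + b ∉ B := fun h => hb (by simpa using B.sub_mem h haB)
  exact h4 (hno _ h3)

lemma exists_common_compl (n : ℕ) : ∀ (A B : Submodule K V), finrank K A = finrank K B →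
    finrank K A + n = finrank K V → ∃ C : Submodule K V, IsCompl C A ∧ IsCompl C B := by
  induction n with
  | zero =>
    intro A B hAB hn
    have hA : A = ⊤ := Submodule.eq_top_of_finrank_eq (by omega)
    have hB : B = ⊤ := Submodule.eq_top_of_finrank_eq (by omega)
    exact ⟨⊥, by rw [hA]; exact isCompl_bot_top, by rw [hB]; exact isCompl_bot_top⟩
  | succ n ih =>
    intro A B hAB hn
    have hA : A ≠ ⊤ := by
      intro h
      rw [h, finrank_top] at hn
      omega
    have hB : B ≠ ⊤ := by
      intro h
      rw [hAB, h, finrank_top] at hn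
      omega
    obtain ⟨v, hvA, hvB⟩ := exists_notMem_union hA hB
    have key : ∀ A : Submodule K V, v ∉ A → Disjoint A (K ∙ v) ∧
        finrank K (A ⊔ (K ∙ v) : Submodule K V) = finrank K A + 1 := by
      intro A hv
      have hv0 : v ≠ 0 := by
        rintro rfl
        exact hv A.zero_mem
      have hd : Disjoint A (K ∙ v) := by
        rw [Submodule.disjoint_def]
        intro x hx hx2
        obtain ⟨t, rfl⟩ := Submodule.mem_span_singleton.1 hx2
        by_contra hne
        have ht : t ≠ 0 := by
          rintro rfl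
          simp at hne
        exact hv ((A.smul_mem_iff ht).1 hx)
      refine ⟨hd, ?_⟩
      have := Submodule.finrank_sup_add_finrank_inf_eq A (K ∙ v)
      rw [hd.eq_bot, finrank_bot, finrank_span_singleton hv0] at this
      exact this
    obtain ⟨hdA, hfA⟩ := key A hvA
    obtain ⟨hdB, hfB⟩ := key B hvB
    obtain ⟨C, hCA, hCB⟩ := ih (A ⊔ (K ∙ v)) (B ⊔ (K ∙ v)) (by omega) (by omega)
    refine ⟨(K ∙ v) ⊔ C, ?_, ?_⟩
    · exact (hdA.isCompl_sup_right_of_isCompl_sup_left hCA.symm).symm
    · exact (hdB.isCompl_sup_right_of_isCompl_sup_left hCB.symm).symm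

end complement

section groups

variable {p : ℕ} [Fact p.Prime]

lemma exists_common_compl_zmod {V : Type*} [AddCommGroup V] [Finite V] [Module (ZMod p) V]
    (A B : AddSubgroup V) (hAB : Nat.card A = Nat.card B) :
    ∃ C : AddSubgroup V, IsCompl C A ∧ IsCompl C B := by
  let T : AddSubgroup V ≃o Submodule (ZMod p) V := AddSubgroup.toZModSubmodule p
  have hcard : ∀ A : AddSubgroup V, Nat.card A = Nat.card (T A) := fun A => rfl
  have hfin : ∀ A : AddSubgroup V, Nat.card A = p ^ Module.finrank (ZMod p) (T A) := by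
    intro A
    rw [hcard, Module.natCard_eq_pow_finrank (K := ZMod p), Nat.card_zmod]
  have hp : 1 < p := (Fact.out : p.Prime).one_lt
  have h1 : Module.finrank (ZMod p) (T A) = Module.finrank (ZMod p) (T B) := by
    have := hAB
    rw [hfin, hfin] at this
    exact Nat.pow_right_injective hp this
  obtain ⟨C, hC1, hC2⟩ := exists_common_compl
    (Module.finrank (ZMod p) V - Module.finrank (ZMod p) (T A)) (T A) (T B) h1
    (by have := (T A).finrank_le; omega)
  refine ⟨T.symm C, ?_, ?_⟩
  · rw [T.isCompl_iff, OrderIso.apply_symm_apply]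
    exact hC1
  · rw [T.isCompl_iff, OrderIso.apply_symm_apply]
    exact hC2

lemma exists_common_compl_add {V : Type*} [AddCommGroup V] [Finite V] (hV : ∀ x : V, p • x = 0)
    (A B : AddSubgroup V) (hAB : Nat.card A = Nat.card B) :
    ∃ C : AddSubgroup V, IsCompl C A ∧ IsCompl C B :=
  @exists_common_compl_zmod p _ V _ _ (AddCommGroup.zmodModule hV) A B hAB

lemma exists_common_compl_subgroup {Q : Type*} [CommGroup Q] [Finite Q] (hQ : ∀ x : Q, x ^ p = 1)
    (A B : Subgroup Q) (hAB : Nat.card A = Nat.card B) :
    ∃ C : Subgroup Q, IsCompl C A ∧ IsCompl C B := by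
  obtain ⟨C, h1, h2⟩ := exists_common_compl_add (p := p) (V := Additive Q)
    (fun x => congrArg Additive.ofMul (hQ x.toMul)) A.toAddSubgroup B.toAddSubgroup hAB
  refine ⟨Subgroup.toAddSubgroup.symm C, ?_, ?_⟩
  · rw [Subgroup.toAddSubgroup.isCompl_iff, OrderIso.apply_symm_apply]
    exact h1
  · rw [Subgroup.toAddSubgroup.isCompl_iff, OrderIso.apply_symm_apply]
    exact h2

lemma card_ker_mul {M L : Type*} [Group M] [Group L] (q : M →* L) (hq : Function.Surjective q) :
    Nat.card q.ker * Nat.card L = Nat.card M := by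
  have h3 := Subgroup.card_mul_index q.ker
  rw [Subgroup.index_ker, MonoidHom.range_eq_top.2 hq, Subgroup.card_top] at h3
  exact h3

lemma of_eq_one_iff {M : Type*} [Group M] (x : M) :
    Abelianization.of x = 1 ↔ x ∈ commutator M := QuotientGroup.eq_one_iff x

lemma comap_bijective {M L : Type*} [Group M] [Group L] (q : M →* L) (hq : Function.Surjective q)
    (hqk : commutator M ⊓ q.ker = ⊥) (C : Subgroup (Abelianization M))
    (hCq : IsCompl C (q.ker.map (Abelianization.of : M →* Abelianization M))) :
    Function.Bijective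
      (q.comp (C.comap (Abelianization.of : M →* Abelianization M)).subtype) := by
  constructor
  · rw [injective_iff_map_eq_one]
    intro x hx
    have hx1 : Abelianization.of x.1 ∈ C := x.2
    have hx2 : Abelianization.of x.1 ∈ q.ker.map (Abelianization.of : M →* Abelianization M) :=
      Subgroup.mem_map_of_mem _ hx
    have hx3 : Abelianization.of x.1 ∈ C ⊓ q.ker.map (Abelianization.of : M →* _) := ⟨hx1, hx2⟩
    rw [hCq.inf_eq_bot, Subgroup.mem_bot, of_eq_one_iff] at hx3
    have hx4 : x.1 ∈ commutator M ⊓ q.ker := ⟨hx3, hx⟩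
    rw [hqk, Subgroup.mem_bot] at hx4
    exact Subtype.ext hx4
  · intro y
    obtain ⟨m, rfl⟩ := hq y
    have hm : Abelianization.of m ∈ C ⊔ q.ker.map (Abelianization.of : M →* _) := by
      rw [hCq.sup_eq_top]; exact Subgroup.mem_top _
    obtain ⟨c, hc, a, ha, hca⟩ := Subgroup.mem_sup.1 hm
    obtain ⟨k, hk, rfl⟩ := Subgroup.mem_map.1 ha
    refine ⟨⟨m * k⁻¹, ?_⟩, ?_⟩
    · change Abelianization.of (m * k⁻¹) ∈ C
      rw [map_mul, map_inv, ← hca, mul_inv_cancel_right]
      exact hc
    · change q (m * k⁻¹) = q m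
      have hk' : q k = 1 := hk
      rw [map_mul, map_inv, hk', inv_one, mul_one]

lemma card_map_of {M : Type*} [Group M] (K : Subgroup M) (hK : commutator M ⊓ K = ⊥) :
    Nat.card (K.map (Abelianization.of : M →* Abelianization M)) = Nat.card K := by
  symm
  apply Nat.card_congr
  apply Equiv.ofBijective
    (fun x : K => (⟨Abelianization.of x.1, Subgroup.mem_map_of_mem _ x.2⟩ :
      K.map (Abelianization.of : M →* Abelianization M)))
  constructor
  · intro x y hxy
    have hxy' : Abelianization.of x.1 = Abelianization.of y.1 := congrArg Subtype.val hxy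
    have h3 : (x.1)⁻¹ * y.1 ∈ commutator M := by
      rw [← of_eq_one_iff, map_mul, map_inv, hxy', inv_mul_cancel]
    have h4 : (x.1)⁻¹ * y.1 ∈ commutator M ⊓ K :=
      ⟨h3, K.mul_mem (K.inv_mem x.2) y.2⟩
    rw [hK, Subgroup.mem_bot] at h4
    exact Subtype.ext (inv_mul_eq_one.1 h4)
  · rintro ⟨y, hy⟩
    obtain ⟨x, hx, rfl⟩ := Subgroup.mem_map.1 hy
    exact ⟨⟨x, hx⟩, rfl⟩

/-- Two quotients of the same order of a finite group `M` with elementary abelian abelianisation
are isomorphic when both kernels meet the derived subgroup trivially. -/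
theorem span_lemma {M G H : Type*} [Group M] [Group G] [Group H] [Finite M]
    (p1 : M →* G) (p2 : M →* H) (h1 : Function.Surjective p1) (h2 : Function.Surjective p2)
    (hcard : Nat.card G = Nat.card H) (hexp : ∀ x : M, x ^ p ∈ commutator M)
    (hk1 : commutator M ⊓ p1.ker = ⊥) (hk2 : commutator M ⊓ p2.ker = ⊥) : Nonempty (G ≃* H) := by
  classical
  have hQ : ∀ x : Abelianization M, x ^ p = 1 := by
    intro x
    obtain ⟨z, rfl⟩ := QuotientGroup.mk_surjective x
    exact (QuotientGroup.eq_one_iff _).2 (hexp z)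
  have hkc : Nat.card p1.ker = Nat.card p2.ker := by
    have e1 := card_ker_mul p1 h1
    have e2 := card_ker_mul p2 h2
    rw [hcard] at e1
    have : Finite H := Finite.of_surjective p2 h2
    have hpos : 0 < Nat.card H := Nat.card_pos
    exact Nat.eq_of_mul_eq_mul_right hpos (e1.trans e2.symm)
  have : Finite (Abelianization M) := Finite.of_surjective _ QuotientGroup.mk_surjective
  obtain ⟨C, hC1, hC2⟩ := exists_common_compl_subgroup hQ
    (p1.ker.map (Abelianization.of : M →* Abelianization M))
    (p2.ker.map (Abelianization.of : M →* Abelianization M))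
    (by rw [card_map_of _ hk1, card_map_of _ hk2, hkc])
  exact ⟨(MulEquiv.ofBijective _ (comap_bijective p1 h1 hk1 C hC1)).symm.trans
    (MulEquiv.ofBijective _ (comap_bijective p2 h2 hk2 C hC2))⟩

end groups

end Pool.Agent.Work.MP_8bb7de_al
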