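import Pool.Agent.Work.MP_8bb7de_al.Ab
import Pool.Agent.Work.MP_8bb7de_al.Span

set_option autoImplicit false

/-!
The isomorphism theorem for odd `p`.
-/

namespace Pool.Agent.Work.MP_8bb7de_al

open MonoidAlgebra
open scoped commutatorElement

section

variable {F : Type*} [Field F] {G : Type*} [Group G] {H : Type*} [Group H]

/-- The unit of `F[G]` given by a group element. -/
noncomputable def uG (F : Type*) [Field F] {G : Type*} [Group G] : G →* (MonoidAlgebra F G)ˣ :=
  (of F G).toHomUnits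

@[simp] lemma uG_val (g : G) : ((uG F g : (MonoidAlgebra F G)ˣ) : MonoidAlgebra F G) = single g 1 := rfl

/-- The unit of `F[G]` given by an element of the second group basis. -/
noncomputable def uH (e : MonoidAlgebra F H ≃ₐ[F] MonoidAlgebra F G) :
    H →* (MonoidAlgebra F G)ˣ :=
  ((e : MonoidAlgebra F H →* MonoidAlgebra F G).comp (of F H)).toHomUnits

@[simp] lemma uH_val (e : MonoidAlgebra F H ≃ₐ[F] MonoidAlgebra F G) (h : H) :
    ((uH e h : (MonoidAlgebra F G)ˣ) : MonoidAlgebra F G) = e (single h 1) := rfl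

variable (e : MonoidAlgebra F H ≃ₐ[F] MonoidAlgebra F G)

/-- Compatibility of `ρ` with the projection. -/
def IsRho (ρ : H →* G ⧸ Subgroup.center G) : Prop :=
  ∀ h, proj F (Subgroup.center G) (e (single h 1)) = single (ρ h) 1

variable {e}

lemma uH_factor {ρ : H →* G ⧸ Subgroup.center G} (hρ : IsRho e ρ) {g : G} {h : H}
    (hgh : (g : G ⧸ Subgroup.center G) = ρ h) : (uG F g)⁻¹ * uH e h ∈ U F G := by
  rw [mem_U, Units.val_mul, map_mul, ← map_inv, uG_val, uH_val, hρ, proj_single, ← hgh,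
    single_mul_single, QuotientGroup.mk_inv, inv_mul_cancel, mul_one, one_def]

lemma uH_eq {g : G} {h : H} : uH e h = uG F g * ((uG F g)⁻¹ * uH e h) := by
  group

lemma uG_mem_U {c : G} (hc : c ∈ Subgroup.center G) : uG F c ∈ U F G := by
  rw [mem_U, uG_val, proj_single, (QuotientGroup.eq_one_iff c).2 hc, one_def]

lemma uH_mem_U {ρ : H →* G ⧸ Subgroup.center G} (hρ : IsRho e ρ) {h : H} (h1 : ρ h = 1) :
    uH e h ∈ U F G := by
  rw [mem_U, uH_val, hρ, h1, one_def]

lemma ev_uH_commutator {ρ : H →* G ⧸ Subgroup.center G} (hρ : IsRho e ρ) {φ : G → F}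
    (hφ : CentralChar φ) {g g' : G} {h h' : H} (hg : (g : G ⧸ Subgroup.center G) = ρ h)
    (hg' : (g' : G ⧸ Subgroup.center G) = ρ h') (hc : ⁅g, g'⁆ ∈ Subgroup.center G) :
    ev φ ((uH e ⁅h, h'⁆ : (MonoidAlgebra F G)ˣ) : MonoidAlgebra F G) = φ ⁅g, g'⁆ := by
  have h1 : ⁅uG F g, uG F g'⁆ ∈ U F G := by
    rw [← map_commutatorElement]
    exact uG_mem_U hc
  rw [map_commutatorElement, uH_eq (g := g) (h := h), uH_eq (g := g') (h := h'),
    ev_commutator hφ _ _ _ _ (uH_factor hρ hg) (uH_factor hρ hg') h1, ← map_commutatorElement,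
    uG_val, ev_single, one_mul]

lemma ev_uH_pow {ρ : H →* G ⧸ Subgroup.center G} (hρ : IsRho e ρ) {φ : G → F}
    (hφ : CentralChar φ) {p : ℕ} [CharP F p] {g : G} {h : H}
    (hg : (g : G ⧸ Subgroup.center G) = ρ h) (hgp : g ^ p = 1) :
    ev φ ((uH e (h ^ p) : (MonoidAlgebra F G)ˣ) : MonoidAlgebra F G) = 0 := by
  obtain ⟨A, hA, h1, h2⟩ := ev_pow hφ (uG F g) _ (uH_factor hρ hg) p
  rw [← uH_eq, ← map_pow, ← map_pow, hgp, map_one, mul_one] at h1
  rw [h1, h2, CharP.cast_eq_zero, zero_mul]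

/-- The pairs `(g, h)` with `g` and `h` central respectively trivial under `ρ`, such that all central
characters agree on them. -/
def relS {ρ : H →* G ⧸ Subgroup.center G} (hρ : IsRho e ρ) : Subgroup (G × H) where
  carrier := {x | x.1 ∈ Subgroup.center G ∧ ρ x.2 = 1 ∧ ∀ φ : G → F, CentralChar φ →
    ev φ ((uH e x.2 : (MonoidAlgebra F G)ˣ) : MonoidAlgebra F G) = φ x.1}
  one_mem' := by
    refine ⟨Subgroup.one_mem _, map_one ρ, ?_⟩
    intro φ hφ
    change ev φ ((uH e 1 : (MonoidAlgebra F G)ˣ) : MonoidAlgebra F G) = φ 1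
    rw [map_one, ev_one_U hφ, hφ.one]
  mul_mem' := by
    rintro x y ⟨hx1, hx2, hx3⟩ ⟨hy1, hy2, hy3⟩
    refine ⟨Subgroup.mul_mem _ hx1 hy1, ?_, ?_⟩
    · change ρ (x.2 * y.2) = 1
      rw [map_mul, hx2, hy2, mul_one]
    · intro φ hφ
      change ev φ ((uH e (x.2 * y.2) : (MonoidAlgebra F G)ˣ) : MonoidAlgebra F G) = φ (x.1 * y.1)
      rw [map_mul, ev_mul_U hφ (uH_mem_U hρ hx2) (uH_mem_U hρ hy2), hx3 φ hφ, hy3 φ hφ,
        hφ.add _ hx1 _ hy1]
  inv_mem' := by
    rintro x ⟨hx1, hx2, hx3⟩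
    refine ⟨Subgroup.inv_mem _ hx1, ?_, ?_⟩
    · change ρ (x.2)⁻¹ = 1
      rw [map_inv, hx2, inv_one]
    · intro φ hφ
      change ev φ ((uH e (x.2)⁻¹ : (MonoidAlgebra F G)ˣ) : MonoidAlgebra F G) = φ (x.1)⁻¹
      rw [map_inv, ev_inv_U hφ (uH_mem_U hρ hx2), hx3 φ hφ]
      have h1 := hφ.add _ hx1 _ (Subgroup.inv_mem _ hx1)
      rw [mul_inv_cancel, hφ.one] at h1
      exact neg_eq_of_add_eq_zero_right h1.symm

/-- The fibre product of `G` and `H` over `G / Z(G)`. -/
def fibre (ρ : H →* G ⧸ Subgroup.center G) : Subgroup (G × H) where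
  carrier := {x | (x.1 : G ⧸ Subgroup.center G) = ρ x.2}
  one_mem' := by
    change ((1 : G) : G ⧸ Subgroup.center G) = ρ 1
    rw [map_one, QuotientGroup.mk_one]
  mul_mem' := by
    intro x y hx hy
    change ((x.1 * y.1 : G) : G ⧸ Subgroup.center G) = ρ (x.2 * y.2)
    rw [map_mul, QuotientGroup.mk_mul]
    exact congrArg₂ _ hx hy
  inv_mem' := by
    intro x hx
    change (((x.1)⁻¹ : G) : G ⧸ Subgroup.center G) = ρ (x.2)⁻¹
    rw [map_inv, QuotientGroup.mk_inv]
    exact congrArg _ hx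

lemma commutator_fibre_le {ρ : H →* G ⧸ Subgroup.center G} (hρ : IsRho e ρ) (hG : ClassTwo G) :
    commutator (fibre ρ) ≤ (relS hρ).comap (fibre ρ).subtype := by
  rw [commutator_def, Subgroup.commutator_le]
  intro x _ y _
  have hc : ⁅x.1.1, y.1.1⁆ ∈ Subgroup.center G := by
    rw [Subgroup.mem_center_iff]
    intro g
    have h1 := hG (x.1.1)⁻¹ (y.1.1)⁻¹ g
    rw [inv_inv, inv_inv] at h1
    exact h1.symm.eq
  refine ⟨hc, ?_, ?_⟩
  · change ρ ⁅x.1.2, y.1.2⁆ = 1
    rw [map_commutatorElement, commutatorElement_def, hG.quot_comm (ρ x.1.2) (ρ y.1.2)]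
    group
  · intro φ hφ
    exact ev_uH_commutator hρ hφ x.2 y.2 hc

lemma fst_surjective {ρ : H →* G ⧸ Subgroup.center G} (hs : Function.Surjective ρ) :
    Function.Surjective ((MonoidHom.fst G H).comp (fibre ρ).subtype) := by
  intro g
  obtain ⟨h, hh⟩ := hs (g : G ⧸ Subgroup.center G)
  exact ⟨⟨(g, h), hh.symm⟩, rfl⟩

lemma snd_surjective {ρ : H →* G ⧸ Subgroup.center G} :
    Function.Surjective ((MonoidHom.snd G H).comp (fibre ρ).subtype) := by
  intro h
  obtain ⟨g, hg⟩ := QuotientGroup.mk_surjective (ρ h)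
  exact ⟨⟨(g, h), hg⟩, rfl⟩

lemma map_commutator_of_surjective {M L : Type*} [Group M] [Group L] (q : M →* L)
    (hq : Function.Surjective q) : (commutator M).map q = commutator L := by
  rw [commutator_def, Subgroup.map_commutator, ← MonoidHom.range_eq_map,
    MonoidHom.range_eq_top.2 hq, commutator_def]

lemma card_map_mul_card_inf {M L : Type*} [Group M] [Group L] [Finite M] (q : M →* L)
    (N : Subgroup M) : Nat.card (N.map q) * Nat.card (N ⊓ q.ker : Subgroup M) = Nat.card N := by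
  have h1 := card_ker_mul (q.subgroupMap N) (q.subgroupMap_surjective N)
  rw [mul_comm, ← h1]
  congr 1
  apply Nat.card_congr
  refine ⟨fun x => ⟨⟨x.1, x.2.1⟩, ?_⟩, fun x => ⟨x.1.1, x.1.2, ?_⟩, ?_, ?_⟩
  · exact Subtype.ext x.2.2
  · exact congrArg Subtype.val x.2
  · intro x; rfl
  · intro x; rfl

/-- The isomorphism theorem from the existence of `ρ`, for groups of class two and exponent `p`. -/
theorem iso_of_rho {p : ℕ} [Fact p.Prime] [CharP F p] [Finite G] (hG : ClassTwo G)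
    (hexp : ∀ g : G, g ^ p = 1)
    (he : ∀ h : H, augmentation F G (e (single h 1)) = 1)
    {ρ : H →* G ⧸ Subgroup.center G} (hρ : IsRho e ρ) (hs : Function.Surjective ρ) :
    Nonempty (G ≃* H) := by
  have hfin : Finite H := finite_of_equiv e
  set p1 := (MonoidHom.fst G H).comp (fibre ρ).subtype with hp1
  set p2 := (MonoidHom.snd G H).comp (fibre ρ).subtype with hp2
  have h1 : Function.Surjective p1 := fst_surjective hs
  have h2 : Function.Surjective p2 := snd_surjective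
  have hle := commutator_fibre_le hρ hG
  have hk2 : commutator (fibre ρ) ⊓ p2.ker = ⊥ := by
    rw [eq_bot_iff]
    rintro x ⟨hx1, hx2⟩
    have hx3 : x.1.2 = 1 := hx2
    obtain ⟨hc, -, hφ⟩ := hle hx1
    have hx4 : x.1.1 = 1 := by
      by_contra hne
      obtain ⟨φ, hφ1, hφ2⟩ := exists_centralChar_ne (F := F) (p := p) (fun z _ => hexp z) hc hne
      apply hφ2
      change φ x.1.1 = 0
      have h5 := hφ φ hφ1
      change ev φ ((uH e x.1.2 : (MonoidAlgebra F G)ˣ) : MonoidAlgebra F G) = φ x.1.1 at h5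
      rw [← h5, hx3, map_one, ev_one_U hφ1]
    rw [Subgroup.mem_bot]
    apply Subtype.ext
    exact Prod.ext hx4 hx3
  have hcard := card_commutator_eq e
  have e1 := card_map_mul_card_inf p1 (commutator (fibre ρ))
  have e2 := card_map_mul_card_inf p2 (commutator (fibre ρ))
  rw [map_commutator_of_surjective p1 h1] at e1
  rw [map_commutator_of_surjective p2 h2, hk2, Subgroup.card_bot, mul_one, hcard] at e2
  have hk1 : commutator (fibre ρ) ⊓ p1.ker = ⊥ := by
    rw [← Subgroup.card_eq_one]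
    rw [← e2] at e1
    have hpos : 0 < Nat.card (commutator G) := Nat.card_pos
    exact Nat.eq_of_mul_eq_mul_left hpos (by rw [e1, mul_one])
  have hHexp : ∀ h : H, h ^ p = 1 := by
    intro h
    have h3 := pow_char_mem_commutator p (fun g => by rw [hexp]; exact Subgroup.one_mem _) e he h
    rw [← map_commutator_of_surjective p2 h2] at h3
    obtain ⟨x, hx, hxh⟩ := Subgroup.mem_map.1 h3
    obtain ⟨hc, -, hφ⟩ := hle hx
    obtain ⟨y, hy⟩ := h2 h
    have hx2 : x.1.2 = h ^ p := hxh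
    have hy2 : y.1.2 = h := hy
    have hx4 : x.1.1 = 1 := by
      by_contra hne
      obtain ⟨φ, hφ1, hφ2⟩ := exists_centralChar_ne (F := F) (p := p) (fun z _ => hexp z) hc hne
      apply hφ2
      change φ x.1.1 = 0
      have h5 := hφ φ hφ1
      change ev φ ((uH e x.1.2 : (MonoidAlgebra F G)ˣ) : MonoidAlgebra F G) = φ x.1.1 at h5
      rw [← h5, hx2, ← hy2]
      exact ev_uH_pow hρ hφ1 y.2 (hexp _)
    have hx5 : x ∈ commutator (fibre ρ) ⊓ p1.ker := ⟨hx, hx4⟩
    rw [hk1, Subgroup.mem_bot] at hx5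
    rw [← hx2, hx5]
    rfl
  apply span_lemma (p := p) p1 p2 h1 h2 (card_eq_of_equiv e).symm _ hk1 hk2
  intro x
  have : x ^ p = 1 := by
    apply Subtype.ext
    exact Prod.ext (hexp _) (hHexp _)
  rw [this]
  exact Subgroup.one_mem _

/-- The theorem for groups of class at most two and exponent `p`. -/
theorem exponent_main {p : ℕ} [Fact p.Prime] [CharP F p] [Finite G] (hG : ClassTwo G)
    (hexp : ∀ g : G, g ^ p = 1) (e : MonoidAlgebra F G ≃ₐ[F] MonoidAlgebra F H) :
    Nonempty (G ≃* H) := by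
  obtain ⟨e', he'⟩ := exists_normalized e.symm
  have hK : KeyProp F G := by
    intro δ hδ g
    exact proj_logD_eq hδ hG (fun g y hgy => odd_coeff_zero hδ hexp hG g y hgy) g
  have hS : SepProp F G := by
    apply sepProp_of (p := p) hG.quot_comm
    intro a
    obtain ⟨g, rfl⟩ := QuotientGroup.mk_surjective a
    rw [← QuotientGroup.mk_pow, hexp]
    rfl
  obtain ⟨ρ, hρ, hs⟩ := exists_rho e' hK hS he'
  exact iso_of_rho (p := p) hG hexp he' hρ hs

end

end Pool.Agent.Work.MP_8bb7de_al
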