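import Pool.Agent.Work.MP_8bb7de_al.Key

set_option autoImplicit false

/-!
Transfer of a second group basis to the quotient by the centre.
-/

namespace Pool.Agent.Work.MP_8bb7de_al

open MonoidAlgebra

section

variable {F : Type*} [Field F] {G : Type*} [Group G] {H : Type*} [Group H]

/-- Any isomorphism of group algebras can be normalised to respect augmentations. -/
lemma exists_normalized (e : MonoidAlgebra F H ≃ₐ[F] MonoidAlgebra F G) :
    ∃ e' : MonoidAlgebra F H ≃ₐ[F] MonoidAlgebra F G,
      ∀ h : H, augmentation F G (e' (single h 1)) = 1 := by
  let c : H →* F := ((augmentation F G).comp e.toAlgHom : MonoidAlgebra F H →* F).comp (of F H)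
  have hc : ∀ h, c h = augmentation F G (e (single h 1)) := fun h => rfl
  have hcinv : ∀ h, c h * c h⁻¹ = 1 := by
    intro h
    rw [← map_mul, mul_inv_cancel, map_one]
  let f1 : H →* MonoidAlgebra F H :=
    { toFun := fun h => single h (c h⁻¹)
      map_one' := by simp [one_def]
      map_mul' := by
        intro x y
        rw [single_mul_single, mul_inv_rev, map_mul]
        congr 1
        ring }
  let f2 : H →* MonoidAlgebra F H :=
    { toFun := fun h => single h (c h)
      map_one' := by simp [one_def]
      map_mul' := by
        intro x y
        rw [single_mul_single, map_mul] }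
  let ψ : MonoidAlgebra F H ≃ₐ[F] MonoidAlgebra F H :=
    AlgEquiv.ofAlgHom (lift F (MonoidAlgebra F H) H f1) (lift F (MonoidAlgebra F H) H f2)
      (by
        apply algHom_ext
        intro h
        · simp only [AlgHom.comp_apply, lift_single, one_smul, AlgHom.id_apply]
          change lift F (MonoidAlgebra F H) H f1 (single h (c h)) = _
          rw [lift_single]
          change c h • single h (c h⁻¹) = _
          rw [smul_single', hcinv]
        · exact Subsingleton.elim _ _)
      (by
        apply algHom_ext
        intro h
        · simp only [AlgHom.comp_apply, lift_single, one_smul, AlgHom.id_apply]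
          change lift F (MonoidAlgebra F H) H f2 (single h (c h⁻¹)) = _
          rw [lift_single]
          change c h⁻¹ • single h (c h) = _
          rw [smul_single', mul_comm, hcinv]
        · exact Subsingleton.elim _ _)
  refine ⟨ψ.trans e, ?_⟩
  intro h
  have h1 : ψ (single h 1) = single h (c h⁻¹) := by
    change lift F (MonoidAlgebra F H) H f1 (single h 1) = _
    rw [lift_single, one_smul]
    rfl
  have h2 : (single h (c h⁻¹) : MonoidAlgebra F H) = (c h⁻¹) • single h 1 := by
    rw [smul_single', mul_one]
  rw [AlgEquiv.trans_apply, h1, h2, map_smul, map_smul, ← hc, smul_eq_mul, mul_comm, hcinv]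

variable (e : MonoidAlgebra F H ≃ₐ[F] MonoidAlgebra F G)

lemma augmentation_e (he : ∀ h : H, augmentation F G (e (single h 1)) = 1) (a : MonoidAlgebra F H) :
    augmentation F G (e a) = augmentation F H a := by
  induction a using MonoidAlgebra.induction_linear with
  | zero => simp
  | add x y hx hy => simp [hx, hy]
  | single h r =>
    have : (single h r : MonoidAlgebra F H) = r • single h 1 := by simp
    rw [this, map_smul, map_smul, he, map_smul, augmentation_single]

/-- The derivation of `F[G]` obtained from an additive character of the other group `H`. -/
noncomputable def transDer (χ : H → F) : MonoidAlgebra F G →ₗ[F] MonoidAlgebra F G :=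
  e.toLinearMap ∘ₗ diagDer χ ∘ₗ e.symm.toLinearMap

lemma transDer_e (χ : H → F) (a : MonoidAlgebra F H) : transDer e χ (e a) = e (diagDer χ a) := by
  simp [transDer]

lemma transDer_isDer {χ : H → F} (hχ : IsAddChar χ) : IsDer (transDer e χ) := by
  intro x y
  obtain ⟨x, rfl⟩ := e.surjective x
  obtain ⟨y, rfl⟩ := e.surjective y
  rw [← map_mul, transDer_e, transDer_e, transDer_e, diagDer_isDer hχ, map_add, map_mul, map_mul]

/-- The additive character of `H` corresponding to an additive character of `G`. -/
noncomputable def pullChar (η : G → F) (h : H) : F :=
  augmentation F G (diagDer η (e (single h 1)))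

lemma pullChar_isAddChar (he : ∀ h : H, augmentation F G (e (single h 1)) = 1) {η : G → F}
    (hη : IsAddChar η) : IsAddChar (pullChar e η) := by
  intro g h
  unfold pullChar
  have : (single (g * h) (1 : F)) = single g 1 * single h 1 := by simp [single_mul_single]
  rw [this, map_mul, diagDer_isDer hη, map_add, map_mul, map_mul, he, he]
  ring

lemma augmentation_transDer_pullChar (he : ∀ h : H, augmentation F G (e (single h 1)) = 1)
    (η : G → F) (a : MonoidAlgebra F G) :
    augmentation F G (transDer e (pullChar e η) a) = augmentation F G (diagDer η a) := by
  obtain ⟨a, rfl⟩ := e.surjective a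
  rw [transDer_e, augmentation_e e he]
  induction a using MonoidAlgebra.induction_linear with
  | zero => simp
  | add x y hx hy => simp [hx, hy]
  | single h r =>
    have : (single h r : MonoidAlgebra F H) = r • single h 1 := by simp
    rw [this]
    simp only [map_smul]
    congr 1
    rw [diagDer_single, augmentation_single, mul_one]
    rfl

/-- The key property of `F[G]`: derivations act diagonally modulo the centre. -/
def KeyProp (F : Type*) [Field F] (G : Type*) [Group G] : Prop :=
  ∀ δ : MonoidAlgebra F G →ₗ[F] MonoidAlgebra F G, IsDer δ → ∀ g : G,
    proj F (Subgroup.center G) (logD δ g) = single 1 (augmentation F G (δ (single g 1)))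

/-- Additive characters of `G/Z(G)` separate points. -/
def SepProp (F : Type*) [Field F] (G : Type*) [Group G] : Prop :=
  ∀ x y : G ⧸ Subgroup.center G, x ≠ y → ∃ η : G ⧸ Subgroup.center G → F, IsAddChar η ∧ η x ≠ η y

lemma proj_transDer (hK : KeyProp F G) (he : ∀ h : H, augmentation F G (e (single h 1)) = 1)
    {η : G ⧸ Subgroup.center G → F} (hη : IsAddChar η) (a : MonoidAlgebra F G) :
    proj F (Subgroup.center G) (transDer e (pullChar e (fun g => η (g : G ⧸ Subgroup.center G))) a) =
      diagDer η (proj F (Subgroup.center G) a) := by
  have hη' : IsAddChar (fun g : G => η (g : G ⧸ Subgroup.center G)) := by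
    intro g h
    simp only [QuotientGroup.mk_mul]
    exact hη _ _
  induction a using MonoidAlgebra.induction_linear with
  | zero => simp
  | add x y hx hy => simp [hx, hy]
  | single g r =>
    have h1 : (single g r : MonoidAlgebra F G) = r • single g 1 := by simp
    rw [h1, map_smul, map_smul, map_smul, map_smul]
    congr 1
    rw [delta_single, map_mul, hK _ (transDer_isDer e (pullChar_isAddChar e he hη')),
      augmentation_transDer_pullChar e he, diagDer_single, augmentation_single, proj_single,
      single_mul_single, diagDer_single]
    simp

lemma exists_quotient_value (hK : KeyProp F G) (hS : SepProp F G)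
    (he : ∀ h : H, augmentation F G (e (single h 1)) = 1) (h : H) :
    ∃ x : G ⧸ Subgroup.center G, proj F (Subgroup.center G) (e (single h 1)) = single x 1 := by
  classical
  set b := proj F (Subgroup.center G) (e (single h 1)) with hb
  have haug : augmentation F _ b = 1 := by rw [hb, augmentation_proj, he]
  have hb0 : b ≠ 0 := by
    intro h0
    rw [h0, map_zero] at haug
    exact zero_ne_one haug
  have hkey : ∀ (η : G ⧸ Subgroup.center G → F), IsAddChar η → ∀ x, b.coeff x ≠ 0 →
      η x = pullChar e (fun g => η (g : G ⧸ Subgroup.center G)) h := by
    intro η hη x hx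
    have h1 := proj_transDer e hK he hη (e (single h 1))
    rw [transDer_e, diagDer_single, mul_one] at h1
    have h2 : (single h (pullChar e (fun g => η (g : G ⧸ Subgroup.center G)) h) : MonoidAlgebra F H)
        = (pullChar e (fun g => η (g : G ⧸ Subgroup.center G)) h) • single h 1 := by
      rw [smul_single', mul_one]
    rw [h2, map_smul, map_smul, ← hb] at h1
    have h3 := congrArg (fun a => a.coeff x) h1
    simp only [diagDer_coeff, coeff_smul_apply, smul_eq_mul] at h3
    exact (mul_right_cancel₀ hx h3).symm
  have hex : ∃ x, b.coeff x ≠ 0 := by
    by_contra hno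
    push Not at hno
    apply hb0
    ext x
    simp [hno x]
  obtain ⟨x, hx⟩ := hex
  refine ⟨x, ?_⟩
  have huniq : ∀ y, b.coeff y ≠ 0 → y = x := by
    intro y hy
    by_contra hyx
    obtain ⟨η, hη, hne⟩ := hS y x hyx
    exact hne ((hkey η hη y hy).trans (hkey η hη x hx).symm)
  have hbs : b = single x (b.coeff x) := by
    ext y
    rw [coeff_single, Finsupp.single_apply]
    split_ifs with hxy
    · rw [hxy]
    · by_contra hne
      exact hxy (huniq y hne).symm
  rw [hbs, augmentation_single] at haug
  rw [hbs, haug]

/-- The homomorphism `H → G/Z(G)` read off from an isomorphism of group algebras. -/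
theorem exists_rho (hK : KeyProp F G) (hS : SepProp F G)
    (he : ∀ h : H, augmentation F G (e (single h 1)) = 1) :
    ∃ ρ : H →* G ⧸ Subgroup.center G,
      (∀ h, proj F (Subgroup.center G) (e (single h 1)) = single (ρ h) 1) ∧
        Function.Surjective ρ := by
  classical
  choose f hf using exists_quotient_value e hK hS he
  have hinj : ∀ x y : G ⧸ Subgroup.center G, (single x (1 : F)) = single y 1 → x = y := by
    intro x y hxy
    exact (single_left_inj one_ne_zero).1 hxy
  let ρ : H →* G ⧸ Subgroup.center G :=
    { toFun := f
      map_one' := by
        apply hinj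
        rw [← hf 1, ← one_def, map_one, map_one, one_def]
      map_mul' := by
        intro x y
        apply hinj
        have h1 : (single (x * y) (1 : F)) = single x 1 * single y 1 := by
          simp [single_mul_single]
        rw [← hf, h1, map_mul, map_mul, hf, hf, single_mul_single, mul_one] }
  refine ⟨ρ, hf, ?_⟩
  intro x
  by_contra hno
  push Not at hno
  -- the functional `coeff x ∘ proj ∘ e` vanishes on a basis, hence everywhere
  have hzero : ∀ a : MonoidAlgebra F H,
      (proj F (Subgroup.center G) (e a)).coeff x = 0 := by
    intro a
    induction a using MonoidAlgebra.induction_linear with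
    | zero => simp
    | add a b ha hb => simp [ha, hb]
    | single h r =>
      have h1 : (single h r : MonoidAlgebra F H) = r • single h 1 := by simp
      rw [h1, map_smul, map_smul, hf, coeff_smul_apply, coeff_single, Finsupp.single_apply]
      have h2 : ¬ f h = x := hno h
      rw [if_neg h2]
      simp
  induction x using QuotientGroup.induction_on with
  | H g =>
    obtain ⟨a, ha⟩ := e.surjective (single g 1)
    have := hzero a
    rw [ha, proj_single] at this
    simp at this

end

end Pool.Agent.Work.MP_8bb7de_al
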