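import Pool.Agent.Work.MP_8bb7de_al.Basic

set_option autoImplicit false

/-!
Coefficients of images of group algebra elements in quotient group algebras.
-/

namespace Pool.Agent.Work.MP_8bb7de_al

open MonoidAlgebra

section

variable {F : Type*} [Field F] {G : Type*} [Group G]

/-- The projection `F[G] → F[G/N]`. -/
noncomputable def proj (F : Type*) [Field F] (N : Subgroup G) [N.Normal] :
    MonoidAlgebra F G →ₐ[F] MonoidAlgebra F (G ⧸ N) :=
  MonoidAlgebra.mapDomainAlgHom F F (QuotientGroup.mk' N)

@[simp] lemma proj_single (N : Subgroup G) [N.Normal] (g : G) (r : F) :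
    proj F N (single g r) = single (g : G ⧸ N) r := by
  simp [proj]

@[simp] lemma proj_of (N : Subgroup G) [N.Normal] (g : G) :
    proj F N (of F G g) = of F (G ⧸ N) (g : G ⧸ N) := by
  simp [of]

lemma augmentation_proj (N : Subgroup G) [N.Normal] (a : MonoidAlgebra F G) :
    augmentation F (G ⧸ N) (proj F N a) = augmentation F G a := by
  induction a using MonoidAlgebra.induction_linear with
  | zero => simp
  | add x y hx hy => simp [hx, hy]
  | single g r => simp

lemma proj_coeff_mk (N : Subgroup G) [N.Normal] [Fintype N] (a : MonoidAlgebra F G) (y : G) :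
    (proj F N a).coeff (y : G ⧸ N) = ∑ n : N, a.coeff (y * n) := by
  classical
  induction a using MonoidAlgebra.induction_linear with
  | zero => simp
  | add x y hx hy => simp [hx, hy, Finset.sum_add_distrib]
  | single g r =>
    rw [proj_single]
    simp only [coeff_single, Finsupp.single_apply]
    by_cases h : (g : G ⧸ N) = (y : G ⧸ N)
    · rw [if_pos h]
      have h' : y⁻¹ * g ∈ N := QuotientGroup.eq.1 h.symm
      rw [Finset.sum_eq_single (⟨y⁻¹ * g, h'⟩ : N)]
      · simp
      · intro b _ hb
        rw [if_neg]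
        intro hg
        apply hb
        ext
        simp [hg]
      · simp
    · rw [if_neg h, Finset.sum_eq_zero]
      intro n _
      rw [if_neg]
      intro hg
      apply h
      rw [hg]
      apply QuotientGroup.eq.2
      simp

/-- Comparison `F[G/N] → F[G/Z]` for `N ≤ Z`. -/
noncomputable def projQ (F : Type*) [Field F] (N Z : Subgroup G) [N.Normal] [Z.Normal] (h : N ≤ Z) :
    MonoidAlgebra F (G ⧸ N) →ₐ[F] MonoidAlgebra F (G ⧸ Z) :=
  MonoidAlgebra.mapDomainAlgHom F F (QuotientGroup.map N Z (MonoidHom.id G) (by simpa using h))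

lemma projQ_proj (N Z : Subgroup G) [N.Normal] [Z.Normal] (h : N ≤ Z) (a : MonoidAlgebra F G) :
    projQ F N Z h (proj F N a) = proj F Z a := by
  induction a using MonoidAlgebra.induction_linear with
  | zero => simp
  | add x y hx hy => simp [hx, hy]
  | single g r => simp [projQ]

lemma proj_coeff_eq_zero (N Z : Subgroup G) [N.Normal] [Z.Normal] [Fintype N] (h : N ≤ Z)
    (a : MonoidAlgebra F G) (y : G)
    (H : ∀ x : G, (x : G ⧸ Z) = (y : G ⧸ Z) → ∑ n : N, a.coeff (x * n) = 0) :
    (proj F Z a).coeff (y : G ⧸ Z) = 0 := by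
  classical
  rw [← projQ_proj N Z h]
  by_contra hne
  have h1 : (y : G ⧸ Z) ∈ (projQ F N Z h (proj F N a)).coeff.support := by
    simpa using hne
  have h2 : (projQ F N Z h (proj F N a)).coeff =
      Finsupp.mapDomain (QuotientGroup.map N Z (MonoidHom.id G) (by simpa using h))
        (proj F N a).coeff := rfl
  rw [h2] at h1
  have h3 := Finsupp.mapDomain_support h1
  rw [Finset.mem_image] at h3
  obtain ⟨q, hq, hq'⟩ := h3
  induction q using QuotientGroup.induction_on with
  | H x =>
    have h4 : (x : G ⧸ Z) = (y : G ⧸ Z) := by simpa using hq'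
    have h5 := H x h4
    rw [← proj_coeff_mk] at h5
    exact (Finsupp.mem_support_iff.1 hq) h5

end

end Pool.Agent.Work.MP_8bb7de_al
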